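import Pool.Agent.W573.RF.G

/-!
MP_dc96bc_co: Q1 is true for geometries with a chain of non-splitting flats of the ranks
3, 4, ..., n - 1 (no condition for n ≤ 3).

Proof: (1) `mu ≤ rank * beta` for every matroid with such a chain: delete the points outside the
hyperplane `H` of the chain one by one; each contraction that occurs contains `H` as a spanning
restriction, so it has such a chain again, and `mu(H) ≤ beta(M)` because the complement of `H` spans
(deletion and contraction inside `H`); rank 3 is done directly. (2) The characteristic polynomial gives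
`mu = n * beta`; then exactly `n` points lie outside `H`, they form a basis, every line through two of
them meets `H`, and by counting these are all points of `H`. Hence every deletion splits, and the
structure theorem `DC813.B7.T1` of the starting library applies. (helper573; the equality analysis
follows an idea of helper179, the peeling argument was also found by helpers 232, 233, 709.)
-/

set_option autoImplicit false

namespace Pool.Agent.Results.MP_dc96bc_co.NonSplittingFlag

/-- flats of the geometry with rank function `r` -/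
def IsFlat {α : Type} [DecidableEq α] (r : Finset α → ℕ) (F : Finset α) : Prop :=
  ∀ e, e ∉ F → r F < r (insert e F)

/-- the set `F` is not the union of two flats that are proper subsets of `F` -/
def NonSplitting {α : Type} [DecidableEq α] (r : Finset α → ℕ) (F : Finset α) : Prop :=
  ¬ ∃ F₁ F₂ : Finset α, IsFlat r F₁ ∧ IsFlat r F₂ ∧ F₁ ⊂ F ∧ F₂ ⊂ F ∧ F₁ ∪ F₂ = F

/-- Let `M` be a non-splitting geometry with characteristic polynomial (x-1)(x-2)...(x-n), `n ≥ 1`,
and suppose there are non-splitting flats `F 3 ⊆ F 4 ⊆ … ⊆ F (n-1)` with `rank (F k) = k` (no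
condition for `n ≤ 3`). Then `M` is isomorphic to the cycle geometry of the complete graph on
`n + 1` vertices. -/
theorem result :
    ∀ (α : Type) [Fintype α] [DecidableEq α] (M : Matroid α) (n : ℕ) (r : Finset α → ℕ),
      1 ≤ n →
      M.E = Set.univ →
      (∀ a b : α, M.Indep ({a, b} : Set α)) →
      (∀ X : Finset α, IsGreatest
          {k : ℕ | ∃ I : Finset α, I ⊆ X ∧ M.Indep (↑I : Set α) ∧ I.card = k} (r X)) →
      NonSplitting r Finset.univ →
      (∃ F : ℕ → Finset α,
          (∀ k, 3 ≤ k → k < n → r (F k) = k ∧ IsFlat r (F k) ∧ NonSplitting r (F k)) ∧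
          ∀ k, 3 ≤ k → k + 1 < n → F k ⊆ F (k + 1)) →
      (∑ X : Finset α, (-1 : Polynomial ℤ) ^ X.card * Polynomial.X ^ (r Finset.univ - r X))
        = ∏ i ∈ Finset.Icc 1 n, (Polynomial.X - Polynomial.C (i : ℤ)) →
      ∃ e : α ≃ {s : Sym2 (Fin (n + 1)) // ¬ s.IsDiag},
        ∀ I : Set α, M.Indep I ↔
          (SimpleGraph.fromEdgeSet (Subtype.val '' (e '' I))).IsAcyclic := by
  intro α _ _ M n r hn _ hs hr hsplit hflag hχ
  have hR : DC813.IsRk r := DC813.Link.isRk_of_matroid M r hr
  have hindep := DC813.Link.indep_iff M r hr
  have hs' : ∀ a b : α, r {a, b} = ({a, b} : Finset α).card := by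
    intro a b
    have h := hs a b
    rw [show ({a, b} : Set α) = (({a, b} : Finset α) : Set α) by simp] at h
    exact (hindep _).1 h
  have hround : DC813.Round r Finset.univ :=
    W573.RF.round_of_flat r hR Finset.univ (fun e he => absurd (Finset.mem_univ e) he) hsplit
  obtain ⟨F, hF, hFs⟩ := hflag
  have hFh : ∀ j, j + 3 < n → W573.RF.Fh r j (F (j + 3)) := by
    intro j
    induction j with
    | zero =>
      intro h
      obtain ⟨h1, h2, h3⟩ := hF 3 le_rfl h
      exact ⟨h1, W573.RF.round_of_flat r hR _ h2 h3⟩
    | succ j ih =>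
      intro h
      obtain ⟨h1, h2, h3⟩ := hF (j + 1 + 3) (by omega) h
      refine ⟨h1, W573.RF.round_of_flat r hR _ h2 h3, F (j + 3), ?_, ih (by omega)⟩
      have h4 := hFs (j + 3) (by omega) (by omega)
      rwa [show j + 3 + 1 = j + 1 + 3 by omega] at h4
  have hcrit := W573.RF.crit_final n hn r hR hs' hχ hround
    (fun _ j hj => ⟨F (j + 3), hFh j (by omega)⟩)
  obtain ⟨e, he⟩ := DC813.B7.T1 n hn r hR hs' hcrit hχ
  refine ⟨e, fun I => ?_⟩
  have hfin : I.Finite := Set.toFinite I
  lift I to Finset α using hfin
  rw [hindep, he]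

end Pool.Agent.Results.MP_dc96bc_co.NonSplittingFlag
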